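import Pool.Agent.Q310.OS.Card

/-!
# `OS_{ω₁}` does not imply `2 ^ ω₁ = ω₂`

We construct (in ZFC, without hypotheses on cardinal arithmetic) a poset `P` which forces: the
Ostaszewski square `OS_λ` holds for `λ = ω₁`, and `2 ^ λ > λ⁺`.

`P` is the set of all pairs of a countable approximation to a `□_{ω₁}`-sequence on
`K = (2 ^ ℵ₀)⁺`, and a countable partial function adding maps from `ω₁` onto all initial segments
of `K` and `K⁺` new subsets of `ω₁`.

The forcing language is that of `Pool.Agent.Helper292.SP` (`Lang.lean`): a sentence is represented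
by the set of the conditions which force it, and names for relations on ground model sets are
maps to sets of conditions.  The sentences are defined in `Pool.Agent.Q310.OS` (`Defs.lean`).
-/

set_option autoImplicit false

open Set Cardinal Pool.Agent.IncSeq Pool.Agent.Helper292.SP
open Pool.Agent.Q310.OS

namespace Pool.Agent.Results.MP_9a8e62_lc.OstaszewskiSquareWithoutCH

/-- The first uncountable ordinal of the ground model. -/
abbrev Om : Type := (ℵ₁ : Cardinal.{0}).ord.ToType

theorem om1_Om : Om1 Om := by
  refine ⟨inferInstance, fun a => ?_, fun h => om_uncountable (Set.countable_univ_iff.1 h)⟩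
  refine ((om_Iio_countable a).insert a).mono fun b hb => ?_
  rcases eq_or_lt_of_le (show b ≤ a from hb) with h | h
  · exact Or.inl h
  · exact Or.inr h

theorem kk_ord (χ : Cardinal.{0}) (hχ : χ = 2 ^ ℵ₀) : KK (Order.succ χ).ord.ToType := by
  have hinf : ℵ₀ ≤ χ := by rw [hχ]; exact aleph0_le_cont
  have hsm : ∀ a : (Order.succ χ).ord.ToType, #(Iic a) ≤ χ := by
    intro a
    have h1 : #(Iio a) ≤ χ := Order.lt_succ_iff.1 (by
      have := hI_ord (Order.succ χ) a
      rwa [Cardinal.mk_ord_toType] at this)
    have h2 : (Iic a) ⊆ Iio a ∪ {a} := fun b hb => by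
      rcases eq_or_lt_of_le (show b ≤ a from hb) with h | h
      · exact Or.inr h
      · exact Or.inl h
    exact (Cardinal.mk_le_mk_of_subset h2).trans
      (DS.small_union hinf h1 (DS.small_singleton hinf a))
  refine ⟨inferInstance, fun a => (hsm a).trans hχ.le, fun A hA => ?_, ?_⟩
  · by_contra hcon
    push Not at hcon
    have h1 : #(⋃ a ∈ A, Iic a) ≤ χ :=
      DS.small_biUnion hinf A (hA.trans hχ.ge) _ fun a _ => hsm a
    have h2 : (⋃ a ∈ A, Iic a) = Set.univ := by
      apply eq_univ_of_forall
      intro b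
      obtain ⟨a, ha, hab⟩ := hcon b
      exact mem_iUnion₂.2 ⟨a, ha, hab⟩
    rw [h2, Cardinal.mk_univ, Cardinal.mk_ord_toType] at h1
    exact absurd h1 (not_le.2 (Order.lt_succ χ))
  · rw [← Cardinal.mk_ne_zero_iff, Cardinal.mk_ord_toType]
    exact (hinf.trans (Order.le_succ χ)).trans_lt' Cardinal.aleph0_pos |>.ne'

/-- There are a well-ordered set `K` and a nonempty preordered set `P` such that every condition
of `P` forces: there is no function from `ℕ` onto `Om` (so `Om`, whose proper initial segments
are countable, has the order type `ω₁`); there is no function from `Om` onto `K`, but there is one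
onto every proper nonempty initial segment of `K` (so `K` has the order type `ω₂`); the power set
of `Om` is not an image of `K` (so `2 ^ ω₁ > ω₂`); and the Ostaszewski square `OS_{ω₁}` holds. -/
theorem result : ∃ (K P : Type) (_ : LinearOrder K) (_ : WellFoundedLT K) (_ : Preorder P),
    Nonempty P ∧ ∀ p : P,
      p ∈ fnot (Onto P ℕ Om) ∧
      p ∈ fnot (Onto P Om K) ∧
      (∀ a : K, (∃ b, b < a) → p ∈ Onto P Om (Iio a)) ∧
      p ∈ PowNotLe P Om K ∧
      p ∈ OSq P Om K := by
  have hOm : Om1 Om := om1_Om
  have hne : Nonempty Om := by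
    by_contra h
    rw [not_nonempty_iff] at h
    exact hOm.unc (by
      have : (Set.univ : Set Om) = ∅ := Set.eq_empty_of_isEmpty _
      rw [this]; exact countable_empty)
  let hbot : OrderBot Om :=
    { bot := WellFounded.min (wellFounded_lt (α := Om)) Set.univ ⟨hne.some, mem_univ _⟩
      bot_le := fun a => WellFounded.min_le _ (mem_univ a) }
  have hKK : KK (Order.succ ((2 : Cardinal.{0}) ^ ℵ₀)).ord.ToType := kk_ord _ rfl
  have hW : #Om ≤ (2 : Cardinal.{0}) ^ ℵ₀ := by
    rw [Cardinal.mk_ord_toType, ← Cardinal.succ_aleph0]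
    exact Order.succ_le_of_lt (Cardinal.cantor ℵ₀)
  refine ⟨(Order.succ ((2 : Cardinal.{0}) ^ ℵ₀)).ord.ToType,
    CC (Order.succ ((2 : Cardinal.{0}) ^ ℵ₀)).ord.ToType
      (Order.succ (Order.succ ((2 : Cardinal.{0}) ^ ℵ₀))).ord.ToType Om, inferInstance,
      inferInstance, inferInstance, nonempty_cond, fun p => ⟨?_, ?_, ?_, ?_, ?_⟩⟩
  · exact not_onto_nat hOm.unc p
  · exact not_onto_K hW p
  · intro a ha
    exact onto_seg hOm.unc a ha p
  · refine pow_big hOm.unc hW ?_ ?_ p
    · rw [Cardinal.mk_ord_toType]
      exact Order.le_succ _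
    · rw [Cardinal.mk_ord_toType, Cardinal.mk_ord_toType]
      exact Order.lt_succ _
  · exact mem_fex.2 fun q _ => ⟨q, le_rfl, gC, square q, guess q⟩

end Pool.Agent.Results.MP_9a8e62_lc.OstaszewskiSquareWithoutCH
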